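import Pool.Agent.H.MP_0cad2f_co.helper47.Defs

/-!
The walk along a segment of objectives: two normal cones that meet in a generic point share
`d - 1` constraints, and a chain of normal cones covering the segment gives a path whose length is
at most the number of facets met.
-/

set_option autoImplicit false

namespace Pool.Agent.H.MP_0cad2f_co.helper73

open Matrix Finset
open Pool.Agent.H.MP_0cad2f_co.helper47

variable {n d : ℕ}

/-- The value of an objective of the cone at a feasible point is at most its value at the vertex. -/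
theorem dot_le_vtx {a : Fin n → Fin d → ℝ} {B : Idx n d} (hB : Good a B) {w : Fin d → ℝ}
    (h : InCone a B w) {x : Fin d → ℝ} (hx : ∀ i, a i ⬝ᵥ x ≤ 1) : w ⬝ᵥ x ≤ w ⬝ᵥ vtx a B := by
  rw [← sum_coord, ← sum_nu_smul hB.1 w, sum_dotProduct]
  refine Finset.sum_le_sum fun k _ => ?_
  rw [smul_dotProduct, smul_eq_mul, sum_nu_smul hB.1 w]
  exact mul_le_of_le_one_right (h k) (hx _)

/-- If two normal cones meet in `w`, the constraints of the first one with a nonzero coordinate are
tight at the second vertex. -/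
theorem tight_of_ne {a : Fin n → Fin d → ℝ} {B B' : Idx n d} (hB : Good a B) (hB' : Good a B')
    {w : Fin d → ℝ} (h : InCone a B w) (h' : InCone a B' w) {k : Fin d}
    (hk : nu a B k ⬝ᵥ w ≠ 0) : a (B k) ⬝ᵥ vtx a B' = 1 := by
  have h1 : w ⬝ᵥ vtx a B = w ⬝ᵥ vtx a B' :=
    le_antisymm (dot_le_vtx hB' h' hB.2) (dot_le_vtx hB h hB'.2)
  have h2 : ∑ l, (nu a B l ⬝ᵥ w) * (1 - a (B l) ⬝ᵥ vtx a B') = 0 := by
    have e1 : w ⬝ᵥ vtx a B' = ∑ l, (nu a B l ⬝ᵥ w) * (a (B l) ⬝ᵥ vtx a B') := by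
      conv_lhs => rw [← sum_nu_smul hB.1 w]
      rw [sum_dotProduct]
      exact Finset.sum_congr rfl fun l _ => by rw [smul_dotProduct, smul_eq_mul]
    have e2 := sum_coord a B w
    simp only [mul_sub, mul_one, Finset.sum_sub_distrib]
    rw [e2, ← e1, h1, sub_self]
  have h3 := (Finset.sum_eq_zero_iff_of_nonneg (fun l _ => mul_nonneg (h l)
    (sub_nonneg.mpr (hB'.2 (B l))))).mp h2 k (Finset.mem_univ k)
  rcases mul_eq_zero.mp h3 with h4 | h4
  · exact absurd h4 hk
  · linarith

theorem mem_range_of_ne {a : Fin n → Fin d → ℝ} (hs : Simple a) {B B' : Idx n d}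
    (hB : Good a B) (hB' : Good a B') {w : Fin d → ℝ} (h : InCone a B w) (h' : InCone a B' w)
    {k : Fin d} (hk : nu a B k ⬝ᵥ w ≠ 0) : B k ∈ Set.range B' := by
  by_contra hn
  exact hs B' hB' (B k) hn (tight_of_ne hB hB' h h' hk)

theorem tight_iff {a : Fin n → Fin d → ℝ} (hs : Simple a) {B : Idx n d} (hB : Good a B)
    (i : Fin n) : a i ⬝ᵥ vtx a B = 1 ↔ i ∈ Set.range B := by
  constructor
  · intro h
    by_contra hn
    exact hs B hB i hn h
  · rintro ⟨k, rfl⟩
    exact dot_vtx hB.1 k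

theorem eq_of_vtx_eq {a : Fin n → Fin d → ℝ} (hs : Simple a) {B B' : Idx n d}
    (hB : Good a B) (hB' : Good a B') (h : vtx a B = vtx a B') : B = B' := by
  apply OrderEmbedding.range_inj.mp
  ext i
  rw [← tight_iff hs hB, ← tight_iff hs hB', h]

/-- A vector lies in the span of the constraints with nonzero coordinate. -/
theorem mem_span_support {a : Fin n → Fin d → ℝ} {B : Idx n d} (hB : (mat a B).det ≠ 0)
    (w : Fin d → ℝ) (s : Finset (Fin d)) (hs : ∀ k, nu a B k ⬝ᵥ w ≠ 0 → k ∈ s) :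
    w ∈ Submodule.span ℝ (a '' ((s.map B.toEmbedding : Finset (Fin n)) : Set (Fin n))) := by
  rw [← sum_nu_smul hB w]
  refine Submodule.sum_mem _ fun k _ => ?_
  by_cases hk : nu a B k ⬝ᵥ w = 0
  · rw [hk, zero_smul]
    exact Submodule.zero_mem _
  · refine Submodule.smul_mem _ _ (Submodule.subset_span ⟨B k, ?_, rfl⟩)
    rw [Finset.mem_coe, Finset.mem_map]
    exact ⟨k, hs k hk, rfl⟩

/-- Two different normal cones meeting in a point that is in general position share `d - 1`
constraints, and the point lies on a facet of each of them. -/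
theorem share {a : Fin n → Fin d → ℝ} (hd : 1 ≤ d) (hs : Simple a) {B B' : Idx n d}
    (hB : Good a B) (hB' : Good a B') (hne : B ≠ B') {w : Fin d → ℝ} (h : InCone a B w)
    (h' : InCone a B' w)
    (hw : ∀ s : Finset (Fin n), s.card + 1 < d → w ∉ Submodule.span ℝ (a '' (s : Set (Fin n)))) :
    (∃ k, nu a B k ⬝ᵥ w = 0) ∧
      Module.finrank ℝ (Submodule.span ℝ
        (a '' {i | a i ⬝ᵥ vtx a B = 1 ∧ a i ⬝ᵥ vtx a B' = 1})) = d - 1 := by
  classical
  set K : Finset (Fin d) := Finset.univ.filter fun k => B k ∈ Set.range B' with hK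
  have hK1 : ∀ k, nu a B k ⬝ᵥ w ≠ 0 → k ∈ K := fun k hk => by
    rw [hK, Finset.mem_filter]
    exact ⟨Finset.mem_univ k, mem_range_of_ne hs hB hB' h h' hk⟩
  have hKne : K ≠ Finset.univ := by
    intro hu
    apply hne
    have hsub : Finset.univ.map B.toEmbedding ⊆ Finset.univ.map B'.toEmbedding := by
      intro i hi
      rw [Finset.mem_map] at hi ⊢
      obtain ⟨k, _, rfl⟩ := hi
      have hk : k ∈ K := by rw [hu]; exact Finset.mem_univ k
      rw [hK, Finset.mem_filter] at hk
      obtain ⟨l, hl⟩ := hk.2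
      exact ⟨l, Finset.mem_univ l, hl⟩
    have heq := Finset.eq_of_subset_of_card_le hsub (by simp)
    apply OrderEmbedding.range_inj.mp
    ext i
    have := congrArg (fun s : Finset (Fin n) => i ∈ s) heq
    simpa [Finset.mem_map] using this
  have hKlt : K.card < d := by
    have := Finset.card_lt_card (Finset.ssubset_univ_iff.mpr hKne)
    simpa using this
  have hKge : d ≤ K.card + 1 := by
    by_contra hlt
    refine hw (K.map B.toEmbedding) (by rw [Finset.card_map]; omega) ?_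
    exact mem_span_support hB.1 w K hK1
  refine ⟨?_, ?_⟩
  · by_contra hno
    apply hKne
    rw [Finset.eq_univ_iff_forall]
    intro k
    exact hK1 k fun h0 => hno ⟨k, h0⟩
  · have hset : a '' {i | a i ⬝ᵥ vtx a B = 1 ∧ a i ⬝ᵥ vtx a B' = 1} =
        Set.range (fun k : K => a (B k)) := by
      ext y
      constructor
      · rintro ⟨i, ⟨h1, h2⟩, rfl⟩
        rw [tight_iff hs hB] at h1
        rw [tight_iff hs hB'] at h2
        obtain ⟨k, rfl⟩ := h1
        exact ⟨⟨k, by rw [hK, Finset.mem_filter]; exact ⟨Finset.mem_univ k, h2⟩⟩, rfl⟩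
      · rintro ⟨⟨k, hk⟩, rfl⟩
        rw [hK, Finset.mem_filter] at hk
        exact ⟨B k, ⟨(tight_iff hs hB _).mpr ⟨k, rfl⟩, (tight_iff hs hB' _).mpr hk.2⟩, rfl⟩
    rw [hset]
    have hli : LinearIndependent ℝ (fun k : K => a (B k)) :=
      (det_ne_zero_iff.mp hB.1).comp _ Subtype.val_injective
    rw [finrank_span_eq_card hli, Fintype.card_coe]
    omega

/-- Points of the line through a generic point are in general position of codimension two. -/
theorem line_generic {a : Fin n → Fin d → ℝ} {c X : Fin d → ℝ} (hX : Generic a c X) (μ : ℝ)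
    (s : Finset (Fin n)) (hs : s.card + 1 < d) :
    X + μ • c ∉ Submodule.span ℝ (a '' (s : Set (Fin n))) := by
  intro h
  apply (hX s).2 hs
  have h1 : X + μ • c ∈ Submodule.span ℝ (insert c (a '' (s : Set (Fin n)))) :=
    Submodule.span_mono (Set.subset_insert _ _) h
  have h2 : c ∈ Submodule.span ℝ (insert c (a '' (s : Set (Fin n)))) :=
    Submodule.subset_span (Set.mem_insert _ _)
  have h3 := Submodule.sub_mem _ h1 (Submodule.smul_mem _ μ h2)
  simpa using h3

/-- All but finitely many points of the line through a generic point are generic. -/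
theorem line_finite {a : Fin n → Fin d → ℝ} {c X : Fin d → ℝ} (hX : Generic a c X) :
    {μ : ℝ | ¬ Generic a c (X + μ • c)}.Finite := by
  have h1 : {μ : ℝ | ¬ Generic a c (X + μ • c)} ⊆
      ⋃ s : {s : Finset (Fin n) // s.card < d},
        {μ : ℝ | X + μ • c ∈ Submodule.span ℝ (a '' (s.1 : Set (Fin n)))} := by
    intro μ hμ
    rw [Set.mem_ofPred_eq, Generic, not_forall] at hμ
    obtain ⟨s, hs⟩ := hμ
    rw [Set.mem_iUnion]
    by_contra hno
    apply hs
    refine ⟨fun hc hmem => hno ⟨⟨s, hc⟩, hmem⟩, fun hc hmem => (hX s).2 hc ?_⟩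
    have h2 : c ∈ Submodule.span ℝ (insert c (a '' (s : Set (Fin n)))) :=
      Submodule.subset_span (Set.mem_insert _ _)
    have h3 := Submodule.sub_mem _ hmem (Submodule.smul_mem _ μ h2)
    simpa using h3
  refine (Set.finite_iUnion fun s => ?_).subset h1
  apply Set.Subsingleton.finite
  intro μ hμ μ' hμ'
  by_contra hne
  apply (hX s.1).1 s.2
  rw [Set.mem_ofPred_eq] at hμ hμ'
  have h2 := Submodule.sub_mem _ hμ hμ'
  have h3 : X + μ • c - (X + μ' • c) = (μ - μ') • c := by
    rw [sub_smul]; abel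
  rw [h3] at h2
  have h4 := Submodule.smul_mem _ (μ - μ')⁻¹ h2
  rw [smul_smul, inv_mul_cancel₀ (sub_ne_zero.mpr hne), one_smul] at h4
  have h5 := Submodule.sub_mem _ hμ (Submodule.smul_mem _ μ h4)
  simpa using h5

theorem isClosed_inCone (a : Fin n → Fin d → ℝ) (B : Idx n d) (c X : Fin d → ℝ) :
    IsClosed {μ : ℝ | InCone a B (X + μ • c)} := by
  have : {μ : ℝ | InCone a B (X + μ • c)} = ⋂ k, {μ : ℝ | 0 ≤ nu a B k ⬝ᵥ (X + μ • c)} := by
    ext μ
    simp [InCone]
  rw [this]
  refine isClosed_iInter fun k => isClosed_le continuous_const ?_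
  simp only [dotProduct_add, dotProduct_smul]
  fun_prop

/-- The normal cones cover the segment. -/
theorem line_cover {a : Fin n → Fin d → ℝ} {c X : Fin d → ℝ} {M : ℝ} (hM : 0 < M)
    (hX : Generic a c X)
    (hcov : ∀ μ ∈ Set.Icc (0 : ℝ) M, Generic a c (X + μ • c) →
      ∃ B, Good a B ∧ InCone a B (X + μ • c)) {μ : ℝ} (hμ : μ ∈ Set.Icc (0 : ℝ) M) :
    ∃ B : {B : Idx n d // Good a B}, InCone a B.1 (X + μ • c) := by
  classical
  have hcl : IsClosed (⋃ B : {B : Idx n d // Good a B}, {μ : ℝ | InCone a B.1 (X + μ • c)}) :=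
    isClosed_iUnion_of_finite fun B => isClosed_inCone a B.1 c X
  have hden : Dense ({μ : ℝ | ¬ Generic a c (X + μ • c)}ᶜ) :=
    (line_finite hX).countable.dense_compl ℝ
  have hsub : Set.Ioo (0 : ℝ) M ∩ {μ : ℝ | ¬ Generic a c (X + μ • c)}ᶜ ⊆
      ⋃ B : {B : Idx n d // Good a B}, {μ : ℝ | InCone a B.1 (X + μ • c)} := by
    rintro μ ⟨hμ1, hμ2⟩
    rw [Set.mem_compl_iff, Set.mem_ofPred_eq, not_not] at hμ2
    obtain ⟨B, hB, hB'⟩ := hcov μ (Set.Ioo_subset_Icc_self hμ1) hμ2
    exact Set.mem_iUnion.mpr ⟨⟨B, hB⟩, hB'⟩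
  have h1 : Set.Ioo (0 : ℝ) M ⊆
      closure (Set.Ioo (0 : ℝ) M ∩ {μ : ℝ | ¬ Generic a c (X + μ • c)}ᶜ) :=
    hden.open_subset_closure_inter isOpen_Ioo
  have h2 : closure (Set.Ioo (0 : ℝ) M) ⊆
      ⋃ B : {B : Idx n d // Good a B}, {μ : ℝ | InCone a B.1 (X + μ • c)} :=
    (closure_minimal h1 isClosed_closure).trans (closure_minimal hsub hcl)
  rw [closure_Ioo hM.ne] at h2
  exact Set.mem_iUnion.mp (h2 hμ)

/-- The contact graph of the normal cones along the segment. -/
def contact (a : Fin n → Fin d → ℝ) (c : Fin d → ℝ) (M : ℝ) (X : Fin d → ℝ) :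
    SimpleGraph {B : Idx n d // Good a B} where
  Adj B B' := B ≠ B' ∧ ∃ μ ∈ Set.Icc (0 : ℝ) M, InCone a B.1 (X + μ • c) ∧
    InCone a B'.1 (X + μ • c)
  symm := ⟨fun _ _ h => ⟨h.1.symm, h.2.imp fun _ hμ => ⟨hμ.1, hμ.2.2, hμ.2.1⟩⟩⟩
  loopless := ⟨fun _ h => h.1 rfl⟩

theorem reachable {a : Fin n → Fin d → ℝ} {c X : Fin d → ℝ} {M : ℝ} (hM : 0 < M)
    (hX : Generic a c X)
    (hcov : ∀ μ ∈ Set.Icc (0 : ℝ) M, Generic a c (X + μ • c) →
      ∃ B, Good a B ∧ InCone a B (X + μ • c))
    (B₀ B₁ : {B : Idx n d // Good a B}) (h₀ : InCone a B₀.1 X)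
    (h₁ : InCone a B₁.1 (X + M • c)) : (contact a c M X).Reachable B₀ B₁ := by
  classical
  by_contra hno
  set U : Set ℝ := ⋃ B : {B : {B : Idx n d // Good a B} // (contact a c M X).Reachable B₀ B},
    {μ : ℝ | InCone a B.1.1 (X + μ • c)} with hU
  set V : Set ℝ := ⋃ B : {B : {B : Idx n d // Good a B} // ¬ (contact a c M X).Reachable B₀ B},
    {μ : ℝ | InCone a B.1.1 (X + μ • c)} with hV
  have hUc : IsClosed U := isClosed_iUnion_of_finite fun B => isClosed_inCone a B.1.1 c X
  have hVc : IsClosed V := isClosed_iUnion_of_finite fun B => isClosed_inCone a B.1.1 c X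
  have hpre : IsPreconnected (Set.Icc (0 : ℝ) M) := isPreconnected_Icc
  rw [isPreconnected_closed_iff] at hpre
  have hsub : Set.Icc (0 : ℝ) M ⊆ U ∪ V := by
    intro μ hμ
    obtain ⟨B, hB⟩ := line_cover hM hX hcov hμ
    by_cases hr : (contact a c M X).Reachable B₀ B
    · exact Or.inl (Set.mem_iUnion.mpr ⟨⟨B, hr⟩, hB⟩)
    · exact Or.inr (Set.mem_iUnion.mpr ⟨⟨B, hr⟩, hB⟩)
  obtain ⟨μ, hμ, hμU, hμV⟩ := hpre U V hUc hVc hsub
    ⟨0, Set.left_mem_Icc.mpr hM.le, Set.mem_iUnion.mpr ⟨⟨B₀, SimpleGraph.Reachable.refl _⟩, by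
      simpa using h₀⟩⟩
    ⟨M, Set.right_mem_Icc.mpr hM.le, Set.mem_iUnion.mpr ⟨⟨B₁, hno⟩, h₁⟩⟩
  obtain ⟨⟨B, hB⟩, hB'⟩ := Set.mem_iUnion.mp hμU
  obtain ⟨⟨C, hC⟩, hC'⟩ := Set.mem_iUnion.mp hμV
  apply hC
  refine hB.trans (SimpleGraph.Adj.reachable ?_)
  refine ⟨?_, μ, hμ, hB', hC'⟩
  rintro rfl
  exact hC hB

/-- The walk, for any labelling of the vertices. -/
theorem edist_le_hits_aux {a : Fin n → Fin d → ℝ} (hd : 1 ≤ d) (hs : Simple a)
    {c X : Fin d → ℝ} {M : ℝ} (hM : 0 < M) (hX : Generic a c X)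
    (hcov : ∀ μ ∈ Set.Icc (0 : ℝ) M, Generic a c (X + μ • c) →
      ∃ B, Good a B ∧ InCone a B (X + μ • c))
    (f : {B : Idx n d // Good a B} → Vert a) (hf : ∀ B, (f B).1 = vtx a B.1)
    (B₀ B₁ : {B : Idx n d // Good a B}) (h₀ : InCone a B₀.1 X)
    (h₁ : InCone a B₁.1 (X + M • c)) :
    (graph a).edist (f B₀) (f B₁) ≤ (hits a c M X : ℕ∞) := by
  classical
  have hadj : ∀ B B' : {B : Idx n d // Good a B}, (contact a c M X).Adj B B' →
      (graph a).Adj (f B) (f B') := by
    rintro B B' ⟨hne, μ, _, h1, h2⟩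
    rw [SimpleGraph.fromRel_adj]
    refine ⟨fun he => hne (Subtype.ext (eq_of_vtx_eq hs B.2 B'.2 ?_)), Or.inl ?_⟩
    · rw [← hf, ← hf, he]
    · rw [hf, hf]
      exact (share hd hs B.2 B'.2 (fun h => hne (Subtype.ext h)) h1 h2
        fun s hsc => line_generic hX μ s hsc).2
  have hhit : ∀ B B' : {B : Idx n d // Good a B}, (contact a c M X).Adj B B' →
      ∃ k, Hit a B.1 k c M X := by
    rintro B B' ⟨hne, μ, hμ, h1, h2⟩
    obtain ⟨k, hk⟩ := (share hd hs B.2 B'.2 (fun h => hne (Subtype.ext h)) h1 h2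
        fun s hsc => line_generic hX μ s hsc).1
    exact ⟨k, μ, hμ, h1, hk⟩
  obtain ⟨p, hp⟩ := (reachable hM hX hcov B₀ B₁ h₀ h₁).exists_isPath
  have hlen : p.length ≤ hits a c M X := by
    rcases Nat.eq_zero_or_pos p.length with h0 | hpos
    · rw [h0]; exact Nat.zero_le _
    have hnb : ∀ B ∈ p.support, ∃ k, Hit a B.1 k c M X := by
      intro B hB
      by_cases hB0 : B = B₀
      · subst hB0
        cases p with
        | nil => simp at hpos
        | cons h q => exact hhit _ _ h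
      · have hq : 0 < (p.takeUntil B hB).length := by
          rcases Nat.eq_zero_or_pos (p.takeUntil B hB).length with h1 | h1
          · exact absurd (SimpleGraph.Walk.eq_of_length_eq_zero h1).symm hB0
          · exact h1
        have hr : 0 < (p.takeUntil B hB).reverse.length := by
          rwa [SimpleGraph.Walk.length_reverse]
        generalize (p.takeUntil B hB).reverse = r at hr
        cases r with
        | nil => simp at hr
        | cons h q => exact hhit _ _ h
    have h1 : (p.support.map Subtype.val).toFinset.card = p.length + 1 := by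
      rw [List.toFinset_card_of_nodup (hp.support_nodup.map Subtype.val_injective),
        List.length_map, SimpleGraph.Walk.length_support]
    have h2 : (p.support.map Subtype.val).toFinset ⊆
        Finset.univ.filter fun B : Idx n d => Good a B ∧ ∃ k, Hit a B k c M X := by
      intro B hB
      rw [List.mem_toFinset, List.mem_map] at hB
      obtain ⟨C, hC, rfl⟩ := hB
      rw [Finset.mem_filter]
      exact ⟨Finset.mem_univ _, C.2, hnb C hC⟩
    have h3 := Finset.card_le_card h2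
    have h4 : (Finset.univ.filter fun B : Idx n d => Good a B ∧ ∃ k, Hit a B k c M X).card ≤
        hits a c M X := by
      rw [Finset.card_filter, hits]
      refine Finset.sum_le_sum fun B _ => ?_
      split_ifs with hB
      · obtain ⟨hB1, k, hk⟩ := hB
        refine le_trans ?_ (Finset.single_le_sum (f := fun k =>
          if Good a B ∧ Hit a B k c M X then 1 else 0) (fun _ _ => Nat.zero_le _)
          (Finset.mem_univ k))
        rw [if_pos ⟨hB1, hk⟩]
      · exact Nat.zero_le _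
    omega
  have hmap := (p.map (⟨f, fun {B B'} h => hadj B B' h⟩ : contact a c M X →g graph a)).edist_le
  rw [SimpleGraph.Walk.length_map] at hmap
  exact hmap.trans (by exact_mod_cast hlen)

end Pool.Agent.H.MP_0cad2f_co.helper73
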