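import Pool.Agent.H.MP_0cad2f_co.helper73.Walk
import Pool.Agent.H.MP_0cad2f_co.helper29.Cover

/-!
The walk along a segment of objectives, for objectives that are bounded on the polyhedron.
-/

set_option autoImplicit false

namespace Pool.Agent.H.MP_0cad2f_co.helper73

open Matrix Finset
open Pool.Agent.H.MP_0cad2f_co.helper47 Pool.Agent.H.MP_0cad2f_co.helper29

variable {n d : ℕ}

/-- The walk. -/
theorem edist_le_hits {a : Fin n → Fin d → ℝ} {K : ℝ} (hd : 1 ≤ d) (hs : Simple a)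
    {c X : Fin d → ℝ} {M : ℝ} (hM : 0 < M)
    (hb : ∀ μ ∈ Set.Icc (0 : ℝ) M, ∀ x : Fin d → ℝ, (∀ i, a i ⬝ᵥ x ≤ 1) →
      (X + μ • c) ⬝ᵥ x ≤ K - n2 x)
    (hX : Generic a c X)
    (B₀ B₁ : {B : Idx n d // Good a B}) (h₀ : InCone a B₀.1 X)
    (h₁ : InCone a B₁.1 (X + M • c)) :
    (graph a).edist (toVert a B₀) (toVert a B₁) ≤ (hits a c M X : ℕ∞) :=
  edist_le_hits_aux hd hs hM hX (fun μ hμ hg => exists_good_cone hd (hb μ hμ) hg) (toVert a)
    (fun _ => rfl) B₀ B₁ h₀ h₁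

end Pool.Agent.H.MP_0cad2f_co.helper73
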